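import Pool.Agent.Y282.WI.Fin

/-!
# One class for which the weak type supremum is attained for no `p` in an interval

The definitions (`MG`, `ex`, `WType`, `TFree`, `lam`) are those of the starting library,
`Pool/Agent/H240R3/WT/Stmts.lean`.  The starting result `NotAttained` gives one class and the single
value `p = 53/120`.  Here the class is the same for all `p` in an interval around `53/120`.

Idea.  The weak types `T n` consist of a core with 11 vertices and a chain of `n` white vertices.
For `p` near `53/120` the form of `T n` is `1 - (P_p + a ∑ (t_{k+1} - r t_k)²)`, where `a = a(p)`,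
`r = r(p)` are given by `a (1 + r²) = p`, `a r = 1 - 2 p`, and `P_p` is a quadratic form in twelve
variables.  `P_p` is positive definite near `p = 53/120` and its minimum `ν(p)` on the hyperplane of
total weight one is attained at a point with positive coordinates, which depends continuously on
`p`; so `1 - ν(p)` is the supremum and it is attained only in the limit of an infinite chain with
the weights `t_k = t_0 r^k`.
-/

set_option autoImplicit false

namespace Pool.Agent.Results.MP_ee7c95_co.NotAttainedInterval

open Filter Topology Pool.Agent.H240R3.WT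

/-- There are a nonempty class `𝓗` of 2-coloured multigraphs, for which some weak type is
`𝓗`-free, and `δ > 0` such that for **every** `p` with `|p - 53/120| < δ` (these `p` lie in
`[0,1]`) the limit `μ_p(𝓗)` exists and `λ_p(τ) < μ_p(𝓗)` for every weak type `τ` such that no
member of `𝓗` is `τ`-colourable. -/
theorem result :
    ∃ 𝓗 : Set MG, 𝓗.Nonempty ∧ (∃ τ, TFree 𝓗 τ) ∧
      ∃ δ : ℝ, 0 < δ ∧ ∀ p : ℝ, |p - 53 / 120| < δ → 0 ≤ p ∧ p ≤ 1 ∧ ∃ μ : ℝ,
        Tendsto (fun n : ℕ => ex p 𝓗 n / (n.choose 2 : ℝ)) atTop (𝓝 μ) ∧
        ∀ τ : WType, TFree 𝓗 τ → lam p τ < μ :=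
  Pool.Agent.Y282.WI.Fin.main

end Pool.Agent.Results.MP_ee7c95_co.NotAttainedInterval
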